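import Pool.Agent.Lib.MP_ddd95a_nt.Final

/-!
# Mordell's constant in dimension three

`IsAdmissible d κ` says that every system of `d` real linear forms of determinant `1` has a box with
half side lengths `τ i > 0` and `∏ τ i = κ` in which `0` is the only integer point, and `kappa d` is
the supremum of the numbers admissible in dimension `d`. We show that
`kappa 3 = (8 / 7) cos (2π / 7) cos² (π / 7) = 0.5784...`, and that exactly the positive numbers less
than this value are admissible in dimension `3`.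
-/

namespace Pool.Agent.Results.MP_ddd95a_nt.KappaThree

open Real

/-- `κ` is admissible in dimension `d`: every system of `d` real linear forms of determinant `1`
has a box with half side lengths `τ i > 0`, `∏ τ i = κ`, such that `u = 0` is the only integer
point with `|l_i(u)| ≤ τ i` for all `i`. -/
def IsAdmissible (d : ℕ) (κ : ℝ) : Prop :=
  0 < κ ∧ ∀ A : Matrix (Fin d) (Fin d) ℝ, A.det = 1 →
    ∃ τ : Fin d → ℝ, (∀ i, 0 < τ i) ∧ ∏ i, τ i = κ ∧
      ∀ u : Fin d → ℤ, (∀ i, |∑ j, A i j * (u j : ℝ)| ≤ τ i) → u = 0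

/-- `κ_d`: the supremum of the numbers admissible in dimension `d`. -/
noncomputable def kappa (d : ℕ) : ℝ := sSup {κ : ℝ | IsAdmissible d κ}

/-- **Mordell's constant in dimension three**: `κ_3 = (8 / 7) cos (2π / 7) cos² (π / 7)`, and the
numbers admissible in dimension `3` are exactly the positive numbers less than this value. -/
theorem result :
    kappa 3 = 8 / 7 * cos (2 * π / 7) * cos (π / 7) ^ 2 ∧
      ∀ κ : ℝ, IsAdmissible 3 κ ↔ 0 < κ ∧ κ < 8 / 7 * cos (2 * π / 7) * cos (π / 7) ^ 2 := by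
  have h : IsLUB {κ : ℝ | IsAdmissible 3 κ} (8 / 7 * cos (2 * π / 7) * cos (π / 7) ^ 2) :=
    Pool.Agent.Lib.MP_ddd95a_nt.isLUB_kap
  exact ⟨h.csSup_eq ⟨_, Pool.Agent.Lib.MP_ddd95a_nt.admissible_of_lt (half_pos
    Pool.Agent.Lib.MP_ddd95a_nt.kap_pos) (half_lt_self Pool.Agent.Lib.MP_ddd95a_nt.kap_pos)⟩,
    fun κ => Pool.Agent.Lib.MP_ddd95a_nt.admissible_iff⟩

end Pool.Agent.Results.MP_ddd95a_nt.KappaThree
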