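import Pool.Agent.Lib.MP_ddd95a_nt.Mord.Fin
import Pool.Agent.Lib.MP_ddd95a_nt.Mord.Upp

/-!
# Mordell's constants in large dimensions

`IsAdmissible d κ` says that every system of `d` real linear forms of determinant `1` has a box with
half side lengths `τ i > 0` and `∏ τ i = κ` in which `0` is the only integer point, and `kappa d` is
the supremum of the numbers admissible in dimension `d`. We show that
`(C log³ d)^(-d) ≤ kappa d ≤ (9/10)^d` for all `d ≥ 2`, with an absolute constant `C`, and hence that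
`kappa d ^ (1 / (d log d))` tends to `1`.
-/

namespace Pool.Agent.Results.MP_ddd95a_nt.LargeDimension

open Filter Topology

/-- `κ` is admissible in dimension `d`: every system of `d` real linear forms of determinant `1`
has a box with half side lengths `τ i > 0`, `∏ τ i = κ`, such that `u = 0` is the only integer
point with `|l_i(u)| ≤ τ i` for all `i`. -/
def IsAdmissible (d : ℕ) (κ : ℝ) : Prop :=
  0 < κ ∧ ∀ A : Matrix (Fin d) (Fin d) ℝ, A.det = 1 →
    ∃ τ : Fin d → ℝ, (∀ i, 0 < τ i) ∧ ∏ i, τ i = κ ∧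
      ∀ u : Fin d → ℤ, (∀ i, |∑ j, A i j * (u j : ℝ)| ≤ τ i) → u = 0

/-- `κ_d`: the supremum of the numbers admissible in dimension `d`. -/
noncomputable def kappa (d : ℕ) : ℝ := sSup {κ : ℝ | IsAdmissible d κ}

/-- **Mordell's constants in large dimensions**: there is an absolute constant `C > 0` such that
`(C log³ d)^(-d) ≤ κ_d ≤ (9/10)^d` for all `d ≥ 2`; in particular `κ_d ^ (1 / (d log d)) → 1`. -/
theorem result :
    (∃ C : ℝ, 0 < C ∧ ∀ d : ℕ, 2 ≤ d →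
      ((C * Real.log d ^ 3) ^ d)⁻¹ ≤ kappa d ∧ kappa d ≤ (9 / 10) ^ d) ∧
    Tendsto (fun d : ℕ => kappa d ^ (1 / ((d : ℝ) * Real.log d))) atTop (𝓝 1) := by
  obtain ⟨C, hC, hlow⟩ := Pool.Agent.Lib.MP_ddd95a_nt.Mord.lower
  have hup : ∀ d : ℕ, 2 ≤ d → ∀ κ, IsAdmissible d κ → κ ≤ (9 / 10) ^ d := fun d hd κ hκ =>
    Pool.Agent.Lib.MP_ddd95a_nt.Mord.adm_upper hd hκ
  have h1 : ∀ d : ℕ, 2 ≤ d → ((C * Real.log d ^ 3) ^ d)⁻¹ ≤ kappa d := fun d hd =>
    le_csSup ⟨(9 / 10) ^ d, fun κ hκ => hup d hd κ hκ⟩ (hlow d hd)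
  have h2 : ∀ d : ℕ, 2 ≤ d → kappa d ≤ (9 / 10) ^ d := fun d hd =>
    csSup_le ⟨_, hlow d hd⟩ fun κ hκ => hup d hd κ hκ
  refine ⟨⟨C, hC, fun d hd => ⟨h1 d hd, h2 d hd⟩⟩, ?_⟩
  exact Pool.Agent.Lib.MP_ddd95a_nt.Mord.kap_lim hC h1 fun d hd =>
    (h2 d hd).trans (pow_le_one₀ (by norm_num) (by norm_num))

end Pool.Agent.Results.MP_ddd95a_nt.LargeDimension
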