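import Pool.Agent.Lib.MP_ddd95a_nt.Sec.Final

/-!
# Mordell's constant in dimension three: the two smallest values

For a system `A` of three real linear forms of determinant `1`, `HasEmptyBox A κ` says that some box
with half side lengths `τ i > 0`, `∏ τ i = κ`, contains no integer point `u ≠ 0`. Let `κ(A)` be the
supremum of these `κ`; thus `κ_3` is the minimum of `κ(A)`. We determine the two smallest values
of `κ(A)` and the systems where they are attained:

* `κ(A) = κ_3` exactly for the systems equivalent to the heptagonal one (field of discriminant `49`),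
* the next value is `(8/9) cos (2π/9) cos² (π/9) = 0.60127…`, attained exactly for the systems
  equivalent to the nonagonal one (field of discriminant `81`),
* all other systems have `κ(A) > 0.604`.
-/

namespace Pool.Agent.Results.MP_ddd95a_nt.SecondMinimum

open Real

/-- The system of linear forms `l_i(u) = ∑ j, A i j * u j` has a box with half side lengths
`τ i > 0`, `∏ τ i = κ`, such that `u = 0` is the only integer point with `|l_i(u)| ≤ τ i` for
all `i`. -/
def HasEmptyBox (A : Matrix (Fin 3) (Fin 3) ℝ) (κ : ℝ) : Prop :=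
  ∃ τ : Fin 3 → ℝ, (∀ i, 0 < τ i) ∧ ∏ i, τ i = κ ∧
    ∀ u : Fin 3 → ℤ, (∀ i, |∑ j, A i j * (u j : ℝ)| ≤ τ i) → u = 0

/-- `κ_3`: the supremum of the numbers `κ > 0` such that every system of determinant `1` has an
empty box with `∏ τ i = κ`. -/
noncomputable def kappa3 : ℝ :=
  sSup {κ : ℝ | 0 < κ ∧ ∀ A : Matrix (Fin 3) (Fin 3) ℝ, A.det = 1 → HasEmptyBox A κ}

/-- The system `l_i(u) = u_0 + u_1 θ_i + u_2 θ_i ^ 2` with `θ_i = 2 cos (2 ^ (i + 1) π / n)`,
`i = 0, 1, 2`. For `n = 7` (the heptagonal system) and `n = 9` (the nonagonal system) the `θ_i` are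
conjugate and the system is the one of the ring of integers `ℤ[θ_0]` of a cyclic cubic field. -/
noncomputable def cosSystem (n : ℕ) : Matrix (Fin 3) (Fin 3) ℝ :=
  Matrix.of fun i j => (2 * cos (2 ^ ((i : ℕ) + 1) * π / n)) ^ (j : ℕ)

/-- Equivalence of systems: `A` arises from `B` by a unimodular integer substitution of the
variables, a permutation of the forms and a scaling of the forms. -/
def Equivalent (A B : Matrix (Fin 3) (Fin 3) ℝ) : Prop :=
  ∃ (s : Fin 3 → ℝ) (σ : Equiv.Perm (Fin 3)) (U : Matrix (Fin 3) (Fin 3) ℤ),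
    (∀ i, s i ≠ 0) ∧ IsUnit U.det ∧ ∀ i j, A i j = s i * ∑ k, B (σ i) k * (U k j : ℝ)

open Pool.Agent.Lib.MP_ddd95a_nt in
lemma kappa3_eq : kappa3 = kap := by
  have h : IsLUB {κ : ℝ | IsAdmissible 3 κ} kap := isLUB_kap
  exact h.csSup_eq ⟨_, admissible_of_lt (half_pos kap_pos) (half_lt_self kap_pos)⟩

open Pool.Agent.Lib.MP_ddd95a_nt in
lemma cosSystem_seven : cosSystem 7 = Sec.pw Upper.rho := by
  have h1 : 2 * cos (2 ^ (0 + 1) * π / (7 : ℕ)) = Upper.rho 0 := by
    rw [Upper.rho0, Upper.c]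
    norm_num
  have h2 : 2 * cos (2 ^ (1 + 1) * π / (7 : ℕ)) = Upper.rho 1 := by
    rw [Upper.rho1, Upper.c, show 2 ^ (1 + 1) * π / (7 : ℕ) = 2 * (2 * π / 7) by push_cast; ring,
      cos_two_mul]
    ring
  have h3 : 2 * cos (2 ^ (2 + 1) * π / (7 : ℕ)) = Upper.rho 2 := by
    have hc := Upper.c_root
    rw [Upper.rho2]
    have e : 2 * cos (2 ^ (2 + 1) * π / (7 : ℕ)) = (Upper.c ^ 2 - 2) ^ 2 - 2 := by
      rw [Upper.c, show 2 ^ (2 + 1) * π / (7 : ℕ) = 2 * (2 * (2 * π / 7)) by push_cast; ring,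
        cos_two_mul, cos_two_mul]
      ring
    rw [e]
    linear_combination (Upper.c - 1) * hc
  ext i j
  unfold cosSystem Sec.pw
  simp only [Matrix.of_apply]
  congr 1
  fin_cases i
  · exact h1
  · exact h2
  · exact h3

open Pool.Agent.Lib.MP_ddd95a_nt in
lemma cosSystem_nine : cosSystem 9 = Sec.pw Up9.rho := by
  have h1 : 2 * cos (2 ^ (0 + 1) * π / (9 : ℕ)) = Up9.rho 0 := by
    rw [Up9.rho0, Up9.c]
    norm_num
  have h2 : 2 * cos (2 ^ (1 + 1) * π / (9 : ℕ)) = Up9.rho 1 := by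
    rw [Up9.rho1, Up9.c, show 2 ^ (1 + 1) * π / (9 : ℕ) = 2 * (2 * π / 9) by push_cast; ring,
      cos_two_mul]
    ring
  have h3 : 2 * cos (2 ^ (2 + 1) * π / (9 : ℕ)) = Up9.rho 2 := by
    have hc := Up9.c_root
    rw [Up9.rho2]
    have e : 2 * cos (2 ^ (2 + 1) * π / (9 : ℕ)) = (Up9.c ^ 2 - 2) ^ 2 - 2 := by
      rw [Up9.c, show 2 ^ (2 + 1) * π / (9 : ℕ) = 2 * (2 * (2 * π / 9)) by push_cast; ring,
        cos_two_mul, cos_two_mul]
      ring
    rw [e]
    linear_combination Up9.c * hc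
  ext i j
  unfold cosSystem Sec.pw
  simp only [Matrix.of_apply]
  congr 1
  fin_cases i
  · exact h1
  · exact h2
  · exact h3

/-- A system with nonzero determinant is equivalent to one of determinant `1`. -/
lemma exists_det_one {B : Matrix (Fin 3) (Fin 3) ℝ} (hB : B.det ≠ 0) :
    ∃ A : Matrix (Fin 3) (Fin 3) ℝ, A.det = 1 ∧ Equivalent A B := by
  refine ⟨Matrix.of fun i j => (![B.det⁻¹, 1, 1] : Fin 3 → ℝ) i * B i j, ?_,
    ![B.det⁻¹, 1, 1], 1, 1, ?_, by simp, fun i j => ?_⟩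
  · rw [Matrix.det_mul_column, Fin.prod_univ_three]
    simp [inv_mul_cancel₀ hB]
  · intro i
    fin_cases i
    · exact inv_ne_zero hB
    · exact one_ne_zero
    · exact one_ne_zero
  · rw [Matrix.of_apply]
    congr 1
    simp [Matrix.one_apply]

open Pool.Agent.Lib.MP_ddd95a_nt in
/-- **The two smallest values of `κ(A)`.** A system of determinant `1` equivalent to the heptagonal
one has empty boxes exactly for the `κ < κ_3`; a system of determinant `1` equivalent to the
nonagonal one has empty boxes exactly for the `κ < (8/9) cos (2π/9) cos² (π/9)`, and this number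
lies strictly between `κ_3` and `0.6013`; every other system of determinant `1` has an empty box
with `∏ τ i = 0.604`. Both classes contain systems of determinant `1`. -/
theorem result :
    (∀ A : Matrix (Fin 3) (Fin 3) ℝ, A.det = 1 → Equivalent A (cosSystem 7) →
      ∀ κ : ℝ, HasEmptyBox A κ ↔ 0 < κ ∧ κ < kappa3) ∧
    (∀ A : Matrix (Fin 3) (Fin 3) ℝ, A.det = 1 → Equivalent A (cosSystem 9) →
      ∀ κ : ℝ, HasEmptyBox A κ ↔
        0 < κ ∧ κ < 8 / 9 * cos (2 * π / 9) * cos (π / 9) ^ 2) ∧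
    (∀ A : Matrix (Fin 3) (Fin 3) ℝ, A.det = 1 → ¬ Equivalent A (cosSystem 7) →
      ¬ Equivalent A (cosSystem 9) → HasEmptyBox A (604 / 1000)) ∧
    kappa3 < 8 / 9 * cos (2 * π / 9) * cos (π / 9) ^ 2 ∧
    8 / 9 * cos (2 * π / 9) * cos (π / 9) ^ 2 < 6013 / 10000 ∧
    (∃ A : Matrix (Fin 3) (Fin 3) ℝ, A.det = 1 ∧ Equivalent A (cosSystem 7)) ∧
    (∃ A : Matrix (Fin 3) (Fin 3) ℝ, A.det = 1 ∧ Equivalent A (cosSystem 9)) := by
  rw [kappa3_eq, cosSystem_seven, cosSystem_nine,
    show 8 / 9 * cos (2 * π / 9) * cos (π / 9) ^ 2 = Up9.kap9 from rfl]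
  refine ⟨?_, ?_, ?_, Sec.kap_lt_kap9, by have := Sec.kap9_lt; linarith,
    exists_det_one (by rw [Sec.det7]; norm_num), exists_det_one (by rw [Sec.det9']; norm_num)⟩
  · rintro A hA ⟨s, σ, U, hs, hU, h⟩ κ
    constructor
    · rintro ⟨τ, h1, h2, h3⟩
      rw [← h2]
      refine ⟨Finset.prod_pos fun i _ => h1 i, ?_⟩
      have := Sec.small_of_core (by rw [Sec.det7, abs_neg, abs_of_pos (by norm_num : (0:ℝ) < 7)])
        Upper.core hA hs hU h h1 h3
      rw [← Upper.kap_eq] at this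
      linarith
    · rintro ⟨h1, h2⟩
      exact (admissible_of_lt h1 h2).2 A hA
  · rintro A hA ⟨s, σ, U, hs, hU, h⟩ κ
    constructor
    · rintro ⟨τ, h1, h2, h3⟩
      rw [← h2]
      refine ⟨Finset.prod_pos fun i _ => h1 i, ?_⟩
      have := Sec.small_of_core (by rw [Sec.det9', abs_neg, abs_of_pos (by norm_num : (0:ℝ) < 9)])
        Up9.core hA hs hU h h1 h3
      rw [← Up9.kap9_eq] at this
      linarith
    · rintro ⟨h1, h2⟩
      exact Sec.closed_of_good hA h1 h2
        ((Sec.eqv_of_equiv Sec.N9_unit Sec.V9_N9 Sec.V9_zero_ne hs hU h).good Sec.good9)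
  · intro A hA h7 h9
    rcases Sec.trichotomy A.transpose (by rw [Matrix.det_transpose, hA]; exact one_ne_zero)
      with h | h | h
    · exact Sec.closed_of_good hA (by norm_num) Sec.lt_kT h
    · exact absurd (Sec.equiv_of_eqv Sec.N7_unit Sec.V7_N7 Sec.V7_zero_ne h) h7
    · exact absurd (Sec.equiv_of_eqv Sec.N9_unit Sec.V9_N9 Sec.V9_zero_ne h) h9

end Pool.Agent.Results.MP_ddd95a_nt.SecondMinimum
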